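import Pool.Agent.J6H54.LG.Near
import Pool.Agent.J6H54.LG.Tails

/-!
# Nearly satisfied polynomial relations at a scale
-/

set_option autoImplicit false

open Filter Topology Set

namespace Pool.Agent.J6H85.ZP

open Pool.Agent.J6H54.LG

/-- a nonzero polynomial with integer coefficients, of total degree at most `D` and of height at most
`H`, takes a value of size at most `ε` at `z` -/
def RelNear {σ : Type} (D : ℕ) (H ε : ℝ) (z : σ → ℝ) : Prop := ∃ P : MvPolynomial σ ℤ, P ≠ 0 ∧
  P.totalDegree ≤ D ∧ (∀ s, |((P.coeff s : ℤ) : ℝ)| ≤ H) ∧ |MvPolynomial.aeval z P| ≤ ε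

/-- in the residue field of a sequence of scales there is a relation -/
theorem dep_of_rel (h : ℕ → ℝ) [hS : Sc h] {σ : Type} [Fintype σ] {z : σ → ℝ} {D : ℕ}
    (hn : ∀ᶠ n in (U : Filter ℕ), RelNear D (h n) (1 / h n ^ n) z) :
    ¬ AlgebraicIndependent (R0 h) (ph h ∘ z) := by
  classical
  have hch : ∀ n, ∃ P : MvPolynomial σ ℤ, RelNear D (h n) (1 / h n ^ n) z → P ≠ 0 ∧
      P.totalDegree ≤ D ∧ (∀ s, |((P.coeff s : ℤ) : ℝ)| ≤ h n) ∧
      |MvPolynomial.aeval z P| ≤ 1 / h n ^ n := by
    intro n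
    by_cases hh : RelNear D (h n) (1 / h n ^ n) z
    · obtain ⟨P, hP⟩ := hh
      exact ⟨P, fun _ => hP⟩
    · exact ⟨0, fun h0 => absurd h0 hh⟩
  choose P hP using hch
  let ex : (σ → Fin (D + 1)) → (σ →₀ ℕ) := fun m => Finsupp.equivFunOnFinite.symm fun i => (m i : ℕ)
  have hexinj : Function.Injective ex := by
    intro m m' hm
    funext i
    have := DFunLike.congr_fun hm i
    simp only [ex, Finsupp.equivFunOnFinite_symm_apply_apply] at this
    exact Fin.ext this
  let c : ℕ → (σ → Fin (D + 1)) → ℤ := fun n m => (P n).coeff (ex m)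
  -- the support is in the box
  have hbox : ∀ᶠ n in (U : Filter ℕ), ∀ s ∈ (P n).support, ∃ m, ex m = s := by
    filter_upwards [hn] with n hn s hs
    have h1 := (hP n hn).2.1
    have h2 : ∀ i, s i ≤ D := fun i => by
      have h3 := MvPolynomial.le_totalDegree hs
      have h4 : s i ≤ s.sum fun _ e => e := by
        by_cases hi : i ∈ s.support
        · exact Finset.single_le_sum (f := fun j => s j) (fun _ _ => Nat.zero_le _) hi
        · rw [Finsupp.notMem_support_iff.1 hi]
          exact Nat.zero_le _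
      exact h4.trans (h3.trans h1)
    refine ⟨fun i => ⟨s i, Nat.lt_succ_of_le (h2 i)⟩, ?_⟩
    ext i
    simp [ex]
  have hsum : ∀ᶠ n in (U : Filter ℕ), P n = ∑ m, MvPolynomial.monomial (ex m) (c n m) := by
    filter_upwards [hbox] with n hn
    ext s
    rw [MvPolynomial.coeff_sum]
    simp only [MvPolynomial.coeff_monomial]
    by_cases hs : ∃ m, ex m = s
    · obtain ⟨m, rfl⟩ := hs
      rw [Finset.sum_eq_single m]
      · simp [c]
      · intro m' _ hm'
        rw [if_neg]
        exact fun h0 => hm' (hexinj h0)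
      · intro h0
        exact absurd (Finset.mem_univ _) h0
    · rw [Finset.sum_eq_zero]
      · by_contra hcon
        exact hs (hn s (MvPolynomial.mem_support_iff.2 hcon))
      · intro m _
        rw [if_neg]
        exact fun h0 => hs ⟨m, h0⟩
  have hsz : ∀ m, ∀ᶠ n in (U : Filter ℕ), |(c n m : ℝ)| ≤ h n ^ 1 := by
    intro m
    filter_upwards [hn] with n hn
    rw [pow_one]
    exact (hP n hn).2.2.1 _
  let w : (σ → Fin (D + 1)) → Ov h := fun m => ⟨co (fun n => (c n m : ℝ)), seq_mem h (hsz m)⟩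
  let r : (σ → Fin (D + 1)) → R0 h := fun m => ⟨res h (w m), ⟨w m, ⟨fun n => c n m, rfl⟩, rfl⟩⟩
  obtain ⟨m0, h0⟩ : ∃ m0, ∀ᶠ n in (U : Filter ℕ), c n m0 ≠ 0 := by
    rw [← Ultrafilter.eventually_exists_iff]
    filter_upwards [hn, hsum] with n hn hs
    by_contra hcon
    push Not at hcon
    apply (hP n hn).1
    rw [hs]
    exact Finset.sum_eq_zero fun m _ => by rw [hcon m, MvPolynomial.monomial_zero]
  have hr0 : r m0 ≠ 0 := by
    intro hr
    exact seq_ne_zero h (hsz m0) h0 (congrArg Subtype.val hr)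
  let v : (σ → Fin (D + 1)) → ℝ := fun m => ∏ i, z i ^ (m i : ℕ)
  have hmon : ∀ (n : ℕ) (m : σ → Fin (D + 1)),
      MvPolynomial.aeval z (MvPolynomial.monomial (ex m) (c n m)) = (c n m : ℝ) * v m := by
    intro n m
    rw [MvPolynomial.aeval_monomial]
    congr 1
    rw [Finsupp.prod_fintype _ _ (fun i => pow_zero _)]
    simp [ex, v]
  intro hind
  rw [algebraicIndependent_iff] at hind
  have hrel : ∑ m, (r m : KK h) * ph h (v m) = 0 := by
    have e1 : ∑ m, (r m : KK h) * ph h (v m) = res h (∑ m, w m * ⟨cst (v m), cst_mem h _⟩) := by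
      rw [map_sum]
      refine Finset.sum_congr rfl fun m _ => ?_
      rw [map_mul]
      rfl
    rw [e1, res_eq_zero]
    intro A
    have e2 : ((∑ m, w m * ⟨cst (v m), cst_mem h _⟩ : Ov h) : HR) =
        co (fun n => ∑ m, (c n m : ℝ) * v m) := by
      have e3 : (fun n => ∑ m, (c n m : ℝ) * v m) =
          ∑ m, (fun n => (c n m : ℝ)) * (fun _ => v m) := by
        funext n
        rw [Finset.sum_apply]
        rfl
      rw [AddSubmonoidClass.coe_finsetSum, e3, map_sum]
      refine Finset.sum_congr rfl fun m _ => ?_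
      exact (map_mul co (fun n => (c n m : ℝ)) (fun _ => v m)).symm
    rw [e2, co_abs, ← map_pow, ← map_mul, ← map_one co, co_lt]
    have hge : ∀ᶠ n in (U : Filter ℕ), A + 1 ≤ n :=
      Filter.Eventually.filter_mono Nat.hyperfilter_le_atTop (eventually_ge_atTop _)
    filter_upwards [hn, hge, hsum] with n hn hge hs
    have h2 := hS.two_le n
    have h3 : 0 < h n := by linarith
    have h4 := (hP n hn).2.2.2
    rw [hs, map_sum] at h4
    simp only [hmon] at h4
    simp only [Pi.mul_apply, Pi.pow_apply, Pi.one_apply]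
    calc |∑ m, (c n m : ℝ) * v m| * h n ^ A
        ≤ 1 / h n ^ n * h n ^ A := mul_le_mul_of_nonneg_right h4 (by positivity)
      _ ≤ 1 / h n ^ (A + 1) * h n ^ A := by
          refine mul_le_mul_of_nonneg_right ?_ (by positivity)
          exact one_div_le_one_div_of_le (by positivity) (pow_le_pow_right₀ (by linarith) hge)
      _ = 1 / h n := by
          rw [pow_succ]
          field_simp
      _ < 1 := by
          rw [div_lt_one h3]
          linarith
  have h5 := hind (∑ m, MvPolynomial.monomial (ex m) (r m)) (by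
    rw [map_sum, ← hrel]
    refine Finset.sum_congr rfl fun m _ => ?_
    rw [MvPolynomial.aeval_monomial]
    congr 1
    rw [Finsupp.prod_fintype _ _ (fun i => pow_zero _)]
    simp [ex, v, map_prod, map_pow])
  apply hr0
  have h6 := congrArg (MvPolynomial.coeff (ex m0)) h5
  rw [MvPolynomial.coeff_sum, MvPolynomial.coeff_zero] at h6
  simp only [MvPolynomial.coeff_monomial] at h6
  rw [Finset.sum_eq_single m0] at h6
  · simpa using h6
  · intro m' _ hm'
    rw [if_neg]
    exact fun h0 => hm' (hexinj h0)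
  · intro h0
    exact absurd (Finset.mem_univ _) h0

/-- exact relations over the integers -/
theorem dep_of_int (h : ℕ → ℝ) [hS : Sc h] {σ : Type} {z : σ → ℝ} {P : MvPolynomial σ ℤ}
    (hP : P ≠ 0) (h0 : MvPolynomial.aeval z P = 0) : ¬ AlgebraicIndependent (R0 h) (ph h ∘ z) := by
  intro hind
  rw [algebraicIndependent_iff] at hind
  have hinj : Function.Injective (Int.castRingHom (R0 h)) := by
    intro a b hab
    have h1 := congrArg (fun x : R0 h => (x : KK h)) hab
    have h2 : ph h (a : ℝ) = ph h (b : ℝ) := by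
      rw [map_intCast, map_intCast]
      simpa using h1
    exact_mod_cast (ph h).injective h2
  apply hP
  have h1 := hind (P.map (Int.castRingHom (R0 h))) (by
    have e : MvPolynomial.aeval (ph h ∘ z) (P.map (Int.castRingHom (R0 h))) =
        ph h (MvPolynomial.aeval z P) := by
      rw [MvPolynomial.aeval_def, MvPolynomial.eval₂_map, MvPolynomial.aeval_def,
        MvPolynomial.hom_eval₂]
      congr 1
    rw [e, h0, map_zero])
  exact (MvPolynomial.map_injective _ hinj) (by rw [h1, map_zero])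

/-- if as many tails as there are numbers in `y` are near, then `e` and `y` are independent -/
theorem indep_of_near (h : ℕ → ℝ) [hS : Sc h] {r : ℕ} (y : Fin r → ℝ) (S : Finset (ℕ × ℚ × ℚ))
    (hS' : ∀ p ∈ S, Ok p ∧ Kt p ∈ Pool.Agent.R352.E.clF ({Real.exp 1} ∪ range y)) (hc : r ≤ S.card)
    {D : ℕ} (hn : ∀ p ∈ S, ∀ᶠ n in (U : Filter ℕ), Near D (h n) (1 / h n ^ n) (Real.exp 1) (Tt p)) :
    AlgebraicIndependent (R0 h) (ph h ∘ (fun o : Option (Fin r) => o.elim (Real.exp 1) y)) := by
  classical
  have htr := exp_tr (R := R0 h) (φ := ph h) (fun x hx => indep_of_measM h hx)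
  have hV := V_sub (R := R0 h) (φ := ph h) (fun x hx => indep_of_measM h hx) S
    (fun p hp => ⟨(hS' p hp).1.1, (hS' p hp).1.2.1, (hS' p hp).1.2.2.1⟩)
  have hrange : range (fun o : Option (Fin r) => o.elim (Real.exp 1) y) =
      {Real.exp 1} ∪ range y := by
    ext t
    constructor
    · rintro ⟨o, rfl⟩
      cases o with
      | none => exact Or.inl rfl
      | some i => exact Or.inr ⟨i, rfl⟩
    · rintro (ht | ⟨i, rfl⟩)
      · exact ⟨none, (mem_singleton_iff.1 ht).symm⟩
      · exact ⟨some i, rfl⟩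
  refine indep_of_span hV (fun o => ?_) (by simpa using hc)
  rw [hrange]
  have he : Real.exp 1 ∈ clP (R0 h) (ph h) ({Real.exp 1} ∪ range y) := subset_clP _ (Or.inl rfl)
  cases o with
  | none => exact he
  | some p =>
    have h1 : Tt p.1 ∈ clP (R0 h) (ph h) ({Real.exp 1} ∪ range y) :=
      clP_mono subset_union_left (near_alg h htr (hn p.1 p.2))
    have h2 : Kt p.1 ∈ clP (R0 h) (ph h) ({Real.exp 1} ∪ range y) := clF_le_clP _ (hS' p.1 p.2).2
    have h3 := V_mem (S := (clP (R0 h) (ph h) ({Real.exp 1} ∪ range y) : Set ℝ))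
      (Pool.Agent.R352.E.subset_clF _ he) (hS' p.1 p.2).1
      (Pool.Agent.R352.E.subset_clF _ h2) (Pool.Agent.R352.E.subset_clF _ h1)
    rw [cl_cl] at h3
    exact h3

end Pool.Agent.J6H85.ZP
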